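import Pool.Agent.Lib_helper27.R.Main

/-!
MP_bddfa2_gt: there is a model of ZFC in which `add(N) = ω₁` and `ω₁ < add(S₁(O, O))`.
-/

namespace Pool.Agent.Results.MP_bddfa2_gt.Consistency

open Pool.Agent.Lib_helper27 Fml

theorem result : ∃ (M : Type 1) (E : M → M → Prop), IsModelOfZFC E ∧ Holds E addNltAddRoth :=
  R.main

end Pool.Agent.Results.MP_bddfa2_gt.Consistency
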