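import Pool.Agent.Lib_helper10.Roth.Lower

/-!
MP_bddfa2_gt: every block evasion number is a lower bound for the additivity number of the
Rothberger property. For the square blocks it is at least the slalom number (the additivity of
the null ideal) and at least the constant evasion number.
-/

namespace Pool.Agent.Results.MP_bddfa2_gt.EvasionBound

open Pool.Agent.Roth

theorem result :
    (∀ T : Set (List ℕ), IsBlocking T → evasion T ≤ addRothberger) ∧
      IsBlocking squareBlocks ∧ slalomNumber ≤ evasion squareBlocks ∧
      constEvasion ≤ evasion squareBlocks :=
  ⟨evasion_le, squareBlocks_blocking, slalomNumber_le, constEvasion_le⟩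

end Pool.Agent.Results.MP_bddfa2_gt.EvasionBound
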